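import Pool.Agent.SixCubes.Red
import Pool.Agent.SixCubes.QRa
import Pool.Agent.SixCubes.QRb
import Pool.Agent.SixCubes.Fi
import Pool.Agent.SixCubes.Si
import Pool.Agent.SixCubes.Fin

/-!
Every sufficiently large integer of the form `x ^ 3 + y ^ 3` with `x` positive and `y`
nonnegative (that is, every large sum of at most two positive cubes) is a sum of exactly six
positive cubes.
-/

set_option autoImplicit false

namespace Pool.Agent.Results.MP_9937dc_nt.TwoCubes

open Pool.SixCubes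

theorem threeSq_two (n : ℕ) (hn : n % 4 = 2) : ThreeSq n := by
  obtain ⟨d, t, a, hd, h⟩ := qra n hn
  exact red n d t a (by omega) hd h

theorem threeSq_three (n : ℕ) (hn : n % 8 = 3) : ThreeSq n := by
  obtain ⟨d, t, a, hd, h⟩ := qrb n hn
  exact red n d t a (by omega) hd h

/-- There is a threshold `N` such that every natural number `n ≥ N` of the form
`x ^ 3 + y ^ 3` with `x > 0` and `y ≥ 0` is a sum of six positive cubes. -/
theorem result :
    ∃ N : ℕ, ∀ n : ℕ, N ≤ n → (∃ x y : ℕ, 0 < x ∧ n = x ^ 3 + y ^ 3) →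
      ∃ a b c d e f : ℕ, 0 < a ∧ 0 < b ∧ 0 < c ∧ 0 < d ∧ 0 < e ∧ 0 < f ∧
        n = a ^ 3 + b ^ 3 + c ^ 3 + d ^ 3 + e ^ 3 + f ^ 3 :=
  fin (fi threeSq_two) (si threeSq_three)

end Pool.Agent.Results.MP_9937dc_nt.TwoCubes
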